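import Mathlib

namespace Pool.Agent.Results.MP_d9e015_nt.TwoAdic

def R : Subring ℚ where
  carrier := {q | Odd q.den}
  mul_mem' {a b} ha hb := Odd.of_dvd_nat (Odd.mul ha hb) (Rat.mul_den_dvd a b)
  one_mem' := by simp
  add_mem' {a b} ha hb := Odd.of_dvd_nat (Odd.mul ha hb) (Rat.add_den_dvd a b)
  zero_mem' := by simp
  neg_mem' {a} ha := by simpa using ha

lemma inv_mem (o : ℕ) (h : Odd o) : ((o : ℚ))⁻¹ ∈ R := by
  change Odd _
  rw [Rat.inv_natCast_den_of_pos h.pos]; exact h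

lemma parity (r : ℚ) (hr : r ∈ R) : ∃ u ∈ R, r = 2 * u ∨ r = 1 + 2 * u := by
  have hd : Odd r.den := hr
  have h0 : (r.den : ℚ) ≠ 0 := by exact_mod_cast r.den_nz
  have e : r = r.num * (r.den : ℚ)⁻¹ := by rw [← div_eq_mul_inv, Rat.num_div_den]
  rcases Int.even_or_odd' r.num with ⟨k, hk | hk⟩
  · refine ⟨k * (r.den : ℚ)⁻¹, mul_mem (intCast_mem _ _) (inv_mem _ hd), Or.inl ?_⟩
    conv_lhs => rw [e, hk]
    push_cast; ring
  · obtain ⟨d, hd'⟩ := id hd
    refine ⟨((k - d : ℤ) : ℚ) * (r.den : ℚ)⁻¹, mul_mem (intCast_mem _ _) (inv_mem _ hd), Or.inr ?_⟩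
    have h1 : (r.num : ℚ) = 2 * k + 1 := by rw [hk]; push_cast; ring
    have h2 : (r.den : ℚ) = 2 * d + 1 := by rw [hd']; push_cast; ring
    conv_lhs => rw [e, h1]
    field_simp
    rw [h2]; push_cast; ring

/-- `C a k z`: `z` is congruent to `a` modulo `k` -/
def C (a k : ℕ) (z : ℚ) : Prop := ∃ r ∈ R, z = a + k * r

lemma C.mem {a k z} (h : C a k z) : z ∈ R := by
  obtain ⟨r, hr, rfl⟩ := h
  exact add_mem (natCast_mem _ _) (mul_mem (natCast_mem _ _) hr)

lemma poly (r : ℚ) (hr : r ∈ R) (a b c : ℤ) (o : ℕ) (ho : Odd o) :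
    r + (a + b * r + c * r ^ 2) * (o : ℚ)⁻¹ ∈ R :=
  add_mem hr (mul_mem (add_mem (add_mem (intCast_mem _ _) (mul_mem (intCast_mem _ _) hr))
    (mul_mem (intCast_mem _ _) (pow_mem hr _))) (inv_mem o ho))

def aa (c : ℕ) : ℕ :=
  if c ≤ 16 then 4 else if c ≤ 18 then 5 else if c ≤ 20 then 1 else if c ≤ 24 then 2 else
  if c = 25 then 27 else if c = 26 then 11 else if c = 27 then 15 else if c = 28 then 31 else 16

def kk (c : ℕ) : ℕ := if c ≤ 24 then 8 else 32

lemma special (c : ℕ) (h1 : 16 ≤ c) (h2 : c < 32) (z : ℚ) (h : C (aa c) (kk c) z) :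
    C (aa (c + 1)) (kk (c + 1)) (z * (1 + 16 * z / c ^ 2)) := by
  obtain ⟨r, hr, rfl⟩ := h
  interval_cases c <;> simp only [aa, kk] <;> norm_num
  · obtain ⟨u, hu, rfl | rfl⟩ := parity r hr
    · exact ⟨_, poly u hu 0 2 2 1 (by decide), by push_cast; ring⟩
    · exact ⟨_, poly u hu 2 4 2 1 (by decide), by push_cast; ring⟩
  · exact ⟨_, poly r hr 50 160 128 289 (by decide), by push_cast; ring⟩
  · exact ⟨_, poly r hr 53 40 32 81 (by decide), by push_cast; ring⟩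
  · exact ⟨_, poly r hr 2 32 128 361 (by decide), by push_cast; ring⟩
  · exact ⟨_, poly r hr (-3) 2 8 25 (by decide), by push_cast; ring⟩
  · exact ⟨_, poly r hr 8 64 128 441 (by decide), by push_cast; ring⟩
  · exact ⟨_, poly r hr 2 16 32 121 (by decide), by push_cast; ring⟩
  · exact ⟨_, poly r hr 8 64 128 529 (by decide), by push_cast; ring⟩
  · obtain ⟨u, hu, rfl | rfl⟩ := parity r hr
    · exact ⟨_, poly u hu (-7) (-4) 2 9 (by decide), by push_cast; ring⟩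
    · exact ⟨_, poly u hu (-4) (-2) 2 9 (by decide), by push_cast; ring⟩
  · exact ⟨_, poly r hr 677 864 512 625 (by decide), by push_cast; ring⟩
  · exact ⟨_, poly r hr (-6) 88 128 169 (by decide), by push_cast; ring⟩
  · exact ⟨_, poly r hr (-252) 480 512 729 (by decide), by push_cast; ring⟩
  · exact ⟨_, poly r hr 53 62 32 49 (by decide), by push_cast; ring⟩
  · exact ⟨_, poly r hr 128 512 512 841 (by decide), by push_cast; ring⟩
  · exact ⟨_, poly r hr 32 128 128 225 (by decide), by push_cast; ring⟩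
  · exact ⟨_, poly r hr 128 512 512 961 (by decide), by push_cast; ring⟩

lemma keep (c : ℕ) (z s : ℚ) (hs : s ∈ R) (h : C (aa c) (kk c) z) :
    C (aa c) (kk c) (z * (1 + 64 * s)) := by
  have hz := h.mem
  obtain ⟨r, hr, e⟩ := h
  unfold kk at *
  split_ifs at *
  · refine ⟨r + 8 * (z * s), add_mem hr (mul_mem (ofNat_mem _ _) (mul_mem hz hs)), ?_⟩
    rw [mul_add, mul_one]; nth_rewrite 1 [e]; push_cast; ring
  · refine ⟨r + 2 * (z * s), add_mem hr (mul_mem (ofNat_mem _ _) (mul_mem hz hs)), ?_⟩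
    rw [mul_add, mul_one]; nth_rewrite 1 [e]; push_cast; ring

section
variable (x : ℕ → ℚ) (hx : ∀ m : ℕ, 1 ≤ m → ((m : ℚ) + 1) * x (m + 1) = x m * (x m + m))

/-- scaled sequence -/
def Z (l m : ℕ) : ℚ := m * x m / (16 * (2 ^ l) ^ 2)

include hx

lemma Z_succ (l m : ℕ) (hm : 1 ≤ m) :
    Z x l (m + 1) = Z x l m * (1 + 16 * (2 ^ l) ^ 2 * Z x l m / m ^ 2) := by
  have h0 : (m : ℚ) ≠ 0 := by positivity
  unfold Z
  push_cast
  rw [hx m hm]
  field_simp
  ring

lemma block (l c : ℕ) (h1 : 16 ≤ c) (h2 : c < 32) (h : C (aa c) (kk c) (Z x l (c * 2 ^ l))) :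
    ∀ j, j < 2 ^ l → C (aa (c + 1)) (kk (c + 1)) (Z x l (c * 2 ^ l + j + 1)) := by
  have hp : 0 < 2 ^ l := by positivity
  have hc : 1 ≤ c * 2 ^ l := Nat.mul_pos (by omega) hp
  intro j
  induction j with
  | zero =>
    intro _
    rw [add_zero, Z_succ x hx l _ hc]
    have := special c h1 h2 _ h
    convert this using 3
    have h0 : (c : ℚ) ≠ 0 := by positivity
    push_cast
    field_simp
  | succ j ih =>
    intro hj
    have ih := ih (by omega)
    rw [← add_assoc, Z_succ x hx l _ (by omega)]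
    obtain ⟨e, o, ho, hm⟩ := Nat.exists_eq_two_pow_mul_odd (n := c * 2 ^ l + j + 1) (by omega)
    have he : e < l := by
      by_contra hh
      have : 2 ^ l ∣ c * 2 ^ l + (j + 1) := by
        rw [← add_assoc, hm]
        exact Dvd.dvd.mul_right (pow_dvd_pow 2 (by omega)) _
      have := (Nat.dvd_add_right (Dvd.intro_left c rfl)).1 this
      have := Nat.le_of_dvd (by omega) this
      omega
    obtain ⟨d, rfl⟩ : ∃ d, l = e + 1 + d := ⟨l - e - 1, by omega⟩
    have := keep (c + 1) _ ((2 ^ d) ^ 2 * Z x (e + 1 + d) (c * 2 ^ (e + 1 + d) + j + 1) * ((o : ℚ)⁻¹) ^ 2)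
      (mul_mem (mul_mem (pow_mem (pow_mem (ofNat_mem _ _) _) _) ih.mem) (pow_mem (inv_mem o ho) _)) ih
    convert this using 3
    have h0 : (o : ℚ) ≠ 0 := by have := ho.pos; positivity
    generalize Z x _ _ = z
    rw [hm]
    push_cast
    field_simp
    ring

lemma blocks (l : ℕ) (h : C 4 8 (Z x l (16 * 2 ^ l))) (c : ℕ) (h1 : 16 ≤ c) (h2 : c ≤ 32) :
    C (aa c) (kk c) (Z x l (c * 2 ^ l)) := by
  induction c, h1 using Nat.le_induction with
  | base => exact h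
  | succ c hc ih =>
    have hp : 0 < 2 ^ l := by positivity
    have := block x hx l c hc (by omega) (ih (by omega)) (2 ^ l - 1) (by omega)
    rwa [show c * 2 ^ l + (2 ^ l - 1) + 1 = (c + 1) * 2 ^ l by rw [add_mul]; omega] at this

lemma next (l : ℕ) (h : C 4 8 (Z x l (16 * 2 ^ l))) : C 4 8 (Z x (l + 1) (16 * 2 ^ (l + 1))) := by
  obtain ⟨r, hr, e⟩ := blocks x hx l h 32 (by norm_num) le_rfl
  refine ⟨r, hr, ?_⟩
  rw [show 16 * 2 ^ (l + 1) = 32 * 2 ^ l by ring]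
  have : Z x (l + 1) (32 * 2 ^ l) = Z x l (32 * 2 ^ l) / 4 := by
    unfold Z; field_simp; ring
  rw [this, e]
  simp only [aa, kk]; norm_num; ring

lemma inblock (l : ℕ) (h : C 4 8 (Z x l (16 * 2 ^ l))) (m : ℕ) (h1 : 16 * 2 ^ l ≤ m)
    (h2 : m < 32 * 2 ^ l) : x m ∈ R := by
  have hp : 0 < 2 ^ l := by positivity
  have hz : Z x l m ∈ R := by
    rcases Nat.eq_or_lt_of_le h1 with rfl | h1
    · exact h.mem
    · have hc1 : 16 ≤ (m - 1) / 2 ^ l := by rw [Nat.le_div_iff_mul_le hp]; omega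
      have hc2 : (m - 1) / 2 ^ l < 32 := by rw [Nat.div_lt_iff_lt_mul hp]; omega
      have := block x hx l _ hc1 hc2 (blocks x hx l h _ hc1 hc2.le) ((m - 1) % 2 ^ l) (Nat.mod_lt _ hp)
      rw [Nat.div_add_mod', show m - 1 + 1 = m by omega] at this
      exact this.mem
  obtain ⟨e, o, ho, hm⟩ := Nat.exists_eq_two_pow_mul_odd (n := m) (by omega)
  have he : e < l + 5 := by
    have h3 : 2 ^ e ≤ m := by rw [hm]; exact Nat.le_mul_of_pos_right _ ho.pos
    have h4 : 2 ^ e < 2 ^ (l + 5) := by rw [pow_add]; omega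
    exact (Nat.pow_lt_pow_iff_right (by norm_num)).1 h4
  obtain ⟨d, hd⟩ : ∃ d, 2 * l + 4 = e + d := ⟨2 * l + 4 - e, by omega⟩
  have : x m = 2 ^ d * Z x l m * (o : ℚ)⁻¹ := by
    have h0 : (o : ℚ) ≠ 0 := by have := ho.pos; positivity
    have h5 : (16 : ℚ) * (2 ^ l) ^ 2 = 2 ^ e * 2 ^ d := by rw [← pow_add, ← hd]; ring
    unfold Z
    rw [h5]
    nth_rewrite 2 [hm]
    push_cast
    field_simp
  rw [this]
  exact mul_mem (mul_mem (pow_mem (ofNat_mem _ _) _) hz) (inv_mem o ho)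

end

def val (n : ℕ) : ℕ := (List.range 9).countP (fun i => n % 2 ^ (i + 1) = 0)

def chk : ℕ → ℕ → ℕ → ℕ → ℕ → Bool
  | 0, _, a, _, p => decide (7 ≤ p) && decide (a % 128 = 64)
  | f + 1, m, a, b, p =>
    decide (a * (a + m * b) % 2 ^ val (m + 1) = 0) && decide (val (m + 1) < p) &&
    decide (m + 1 = 2 ^ val (m + 1) * ((m + 1) / 2 ^ val (m + 1))) &&
    decide ((m + 1) / 2 ^ val (m + 1) % 2 = 1) &&
    chk f (m + 1) (a * (a + m * b) / 2 ^ val (m + 1) % 2 ^ (p - val (m + 1)))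
      (b * b * ((m + 1) / 2 ^ val (m + 1)) % 2 ^ (p - val (m + 1))) (p - val (m + 1))

lemma chk_ok : chk 255 1 2 1 300 = true := by decide +kernel

lemma chk_sound (x : ℕ → ℚ) (hx : ∀ m : ℕ, 1 ≤ m → ((m : ℚ) + 1) * x (m + 1) = x m * (x m + m))
    (f m a b p : ℕ) (hm : 1 ≤ m) (h : chk f m a b p = true) (hb : Odd b)
    (hr : ∃ r ∈ R, b * x m = a + 2 ^ p * r) :
    (∀ k, m ≤ k → k ≤ m + f → x k ∈ R) ∧ ∃ r ∈ R, x (m + f) = 64 + 128 * r := by
  induction f generalizing m a b p with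
  | zero =>
    obtain ⟨r, hr, e⟩ := hr
    simp only [chk, Bool.and_eq_true, decide_eq_true_eq] at h
    obtain ⟨d, rfl⟩ : ∃ d, p = 7 + d := ⟨p - 7, by omega⟩
    obtain ⟨b', hb'⟩ := id hb
    have h0 : (b : ℚ) ≠ 0 := by have := hb.pos; positivity
    have ha : (a : ℚ) = 128 * (a / 128 : ℕ) + 64 := by
      have : a = 128 * (a / 128) + 64 := by omega
      exact_mod_cast this
    have key : ∃ r ∈ R, x m = 64 + 128 * r := by
      refine ⟨((a / 128 : ℕ) - b' + 2 ^ d * r) * (b : ℚ)⁻¹, mul_mem (add_mem (sub_mem (natCast_mem _ _)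
        (natCast_mem _ _)) (mul_mem (pow_mem (ofNat_mem _ _) _) hr)) (inv_mem b hb), ?_⟩
      field_simp
      rw [mul_comm (x m), e, ha, hb']
      push_cast
      ring
    refine ⟨fun k h1 h2 => ?_, key⟩
    obtain rfl : k = m := by omega
    obtain ⟨r, hr, e⟩ := key
    rw [e]
    exact add_mem (ofNat_mem _ _) (mul_mem (ofNat_mem _ _) hr)
  | succ f ih =>
    obtain ⟨r, hr, e⟩ := hr
    simp only [chk, Bool.and_eq_true, decide_eq_true_eq] at h
    obtain ⟨⟨⟨⟨c1, c2⟩, c3⟩, c4⟩, c5⟩ := h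
    generalize val (m + 1) = v at *
    generalize (m + 1) / 2 ^ v = o at *
    obtain ⟨d, rfl⟩ : ∃ d, p = v + (d + 1) := ⟨p - v - 1, by omega⟩
    rw [show v + (d + 1) - v = d + 1 by omega] at c5
    obtain ⟨N, hN⟩ := Nat.dvd_of_mod_eq_zero c1
    rw [hN, Nat.mul_div_cancel_left _ (by positivity)] at c5
    have ho : Odd o := Nat.odd_iff.2 c4
    have h0 : (b : ℚ) ≠ 0 := by have := hb.pos; positivity
    have hxm : x m ∈ R := by
      have : x m = (a + 2 ^ (v + (d + 1)) * r) * (b : ℚ)⁻¹ := by rw [← e]; field_simp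
      rw [this]
      exact mul_mem (add_mem (natCast_mem _ _) (mul_mem (pow_mem (ofNat_mem _ _) _) hr)) (inv_mem b hb)
    have hbo : Odd (b * b * o) := (hb.mul hb).mul ho
    have hs : (2 * a + m * b + 2 ^ (v + (d + 1)) * r) * r ∈ R :=
      mul_mem (add_mem (add_mem (mul_mem (ofNat_mem _ _) (natCast_mem _ _))
        (mul_mem (natCast_mem _ _) (natCast_mem _ _))) (mul_mem (pow_mem (ofNat_mem _ _) _) hr)) hr
    have e1 : ((b * b * o : ℕ) : ℚ) * x (m + 1) =
        N + 2 ^ (d + 1) * ((2 * a + m * b + 2 ^ (v + (d + 1)) * r) * r) := by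
      have h1 := hx m hm
      have h2 : (m : ℚ) + 1 = 2 ^ v * o := by exact_mod_cast c3
      have h3 : (a : ℚ) * (a + m * b) = 2 ^ v * N := by exact_mod_cast hN
      have h4 : (2 : ℚ) ^ v ≠ 0 := by positivity
      apply mul_left_cancel₀ h4
      push_cast
      have h5 : (b : ℚ) * b * ((m + 1) * x (m + 1)) = (b * x m) * (b * x m + m * b) := by
        rw [h1]; ring
      rw [e, h2] at h5
      linear_combination h5 + h3
    have hx1 : x (m + 1) ∈ R := by
      have h6 : ((b * b * o : ℕ) : ℚ) ≠ 0 := by have := hbo.pos; positivity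
      have : x (m + 1) = (N + 2 ^ (d + 1) * ((2 * a + m * b + 2 ^ (v + (d + 1)) * r) * r)) *
          ((b * b * o : ℕ) : ℚ)⁻¹ := by rw [← e1]; field_simp
      rw [this]
      exact mul_mem (add_mem (natCast_mem _ _) (mul_mem (pow_mem (ofNat_mem _ _) _) hs)) (inv_mem _ hbo)
    have hodd : Odd (b * b * o % 2 ^ (d + 1)) := by
      rw [Nat.odd_iff, Nat.mod_mod_of_dvd _ (dvd_pow_self 2 (by omega))]
      exact Nat.odd_iff.1 hbo
    have := ih (m + 1) _ _ _ (by omega) c5 hodd ⟨(N / 2 ^ (d + 1) : ℕ) +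
        (2 * a + m * b + 2 ^ (v + (d + 1)) * r) * r - (b * b * o / 2 ^ (d + 1) : ℕ) * x (m + 1),
        sub_mem (add_mem (natCast_mem _ _) hs) (mul_mem (natCast_mem _ _) hx1), by
      have q1 : ((b * b * o : ℕ) : ℚ) = 2 ^ (d + 1) * (b * b * o / 2 ^ (d + 1) : ℕ) +
          (b * b * o % 2 ^ (d + 1) : ℕ) := by exact_mod_cast (Nat.div_add_mod _ _).symm
      have q2 : (N : ℚ) = 2 ^ (d + 1) * (N / 2 ^ (d + 1) : ℕ) + (N % 2 ^ (d + 1) : ℕ) := by
        exact_mod_cast (Nat.div_add_mod _ _).symm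
      linear_combination e1 - x (m + 1) * q1 + q2⟩
    refine ⟨fun k h1 h2 => ?_, by rw [show m + (f + 1) = m + 1 + f by ring]; exact this.2⟩
    rcases Nat.eq_or_lt_of_le h1 with rfl | h1
    · exact hxm
    · exact this.1 k h1 (by omega)

theorem result (x : ℕ → ℚ) (h0 : x 0 = 1)
    (h : ∀ n : ℕ, 1 ≤ n → x n = (1 + ∑ i ∈ Finset.range n, x i ^ 2) / n) :
    ∀ n, Odd (x n).den := by
  have hx : ∀ m : ℕ, 1 ≤ m → ((m : ℚ) + 1) * x (m + 1) = x m * (x m + m) := by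
    intro m hm
    have h1 := h m hm
    have h2 := h (m + 1) (by omega)
    have h3 : (m : ℚ) ≠ 0 := by positivity
    rw [Finset.sum_range_succ] at h2
    rw [eq_div_iff h3] at h1
    rw [eq_div_iff (by positivity)] at h2
    push_cast at h2
    linear_combination h2 - h1
  have h1 : x 1 = 2 := by rw [h 1 le_rfl]; simp [h0]; norm_num
  obtain ⟨b1, r, hr, b2⟩ := chk_sound x hx 255 1 2 1 300 le_rfl chk_ok (by decide)
    ⟨0, zero_mem _, by simp [h1]⟩
  have base : ∀ l, C 4 8 (Z x (4 + l) (16 * 2 ^ (4 + l))) := by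
    intro l
    induction l with
    | zero =>
      refine ⟨r, hr, ?_⟩
      unfold Z
      norm_num at b2 ⊢
      rw [b2]; ring
    | succ l ih => exact next x hx _ ih
  intro n
  change x n ∈ R
  rcases Nat.eq_zero_or_pos n with rfl | hn
  · rw [h0]; exact one_mem _
  by_cases hs : n ≤ 256
  · exact b1 n hn (by omega)
  have hl : 8 ≤ Nat.log 2 n := by
    exact Nat.le_log_of_pow_le (by norm_num) (by omega)
  obtain ⟨l, hl⟩ : ∃ l, Nat.log 2 n = 8 + l := ⟨Nat.log 2 n - 8, by omega⟩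
  have a1 := Nat.pow_log_le_self 2 (x := n) (by omega)
  have a2 := Nat.lt_pow_succ_log_self (b := 2) (by norm_num) n
  rw [hl] at a1 a2
  refine inblock x hx (4 + l) (base l) n ?_ ?_
  · rw [show 16 * 2 ^ (4 + l) = 2 ^ (8 + l) by ring]; exact a1
  · rw [show 32 * 2 ^ (4 + l) = 2 ^ (8 + l).succ by rw [Nat.succ_eq_add_one]; ring]; exact a2

end Pool.Agent.Results.MP_d9e015_nt.TwoAdic
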